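import Pool.Agent.H46.TPQ.Defs
import Pool.Agent.H91.TQ.LfuQ
import Pool.Agent.H76.TP.LfuA

/-!
# TL LinBadG: the bad blocks of `R0 = Ap S`, `R1`, `DD`, general levels (`LinBad.lean` with `Par e1 ζ' ζ κ' κ`)

`H = Hn θ N = ⌊N^θ⌋`, `R = Rn B N = ⌊L^B⌋`, `idx N H ⊆ Icc (N/(2H)) (4N/H)`; `badF` sums `ee(-(α m))` over `blk H i = [iH, (i+1)H)`, `Bs` sums `ee(-(m α))` over the same block: the same (`mul_comm`).
* `R0`: `lfuA` (`H76/TP/LfuA.lean`; `badA`, exponent `A`).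
* `R1 = 2 (Ap - Fq + sqp)`, density `k1 = 2 (kapA - kapF)`: `R1 - k1(iH) lamR = 2 (Ap - kapA lamR) - 2 (Fq - kapF lamR) + 2 sqp`: `lfuA`, `lfu_q`, `sqp_blk` (`H91/TQ/SqpB.lean`), all with exponent `A + 3`: bad set `≤ 3 (N/H)/L^(A+3)`, error `≤ 6 H/L^(A+3)`.
* `DD - (kS - kT) lamR = (S - kS lamR) - (T - kT lamR) + sqp y J1`: `sqp_blk` with `J1`, exponent `A + 2`.
`B0` = max of the ones from `lfuA` and `lfu_q`.  The hypotheses on `S`, `T` (exponent `A + 7`) imply those of `lfuA`, `lfu_q` (larger exponents, `L ≥ 1`).  Parameters: `Par e1 (111/500) (2221/10000) (3053/10000) (1527/5000)` for `0 < e1 ≤ 1/100`.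
-/

set_option autoImplicit false

namespace Pool.Agent.H91.TL

open Finset
open Pool.Agent.H91.PK (ee)
open Pool.Agent.H91.EHA (Lam lamR ramS)
open Pool.Agent.H43.MP (blk Hn idx Rn)
open Pool.Agent.H43.TP (badF)
open Pool.Agent.H53.MID (Fp Bs VKp)
open Pool.Agent.H76.TP
open Pool.Agent.H91.TQ
open Pool.Agent.H46.TPQ (R1 DD k1)

private theorem LinBadG_Bs_add (f g : ℕ → ℝ) (H i : ℕ) (α : ℝ) :
    Bs (fun m => f m + g m) H i α = Bs f H i α + Bs g H i α := by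
  unfold Bs
  rw [← sum_add_distrib]
  refine sum_congr rfl fun m _ => ?_
  push_cast
  ring

private theorem LinBadG_Bs_sub (f g : ℕ → ℝ) (H i : ℕ) (α : ℝ) :
    Bs (fun m => f m - g m) H i α = Bs f H i α - Bs g H i α := by
  unfold Bs
  rw [← sum_sub_distrib]
  refine sum_congr rfl fun m _ => ?_
  push_cast
  ring

private theorem LinBadG_Bs_two (f : ℕ → ℝ) (H i : ℕ) (α : ℝ) :
    Bs (fun m => 2 * f m) H i α = 2 * Bs f H i α := by
  unfold Bs
  rw [mul_sum]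
  refine sum_congr rfl fun m _ => ?_
  push_cast
  ring

private theorem LinBadG_sqp (y J H i : ℕ) (α : ℝ) :
    ‖Bs (fun m => sqp y J m) H i α‖ ≤ ∑ m ∈ Ico (i * H) ((i + 1) * H), sqp y J m := by
  unfold Bs
  refine (norm_sum_le _ _).trans (sum_le_sum fun m _ => ?_)
  have h0 : 0 ≤ sqp y J m := by
    unfold sqp
    exact Nat.cast_nonneg _
  rw [norm_mul]
  have h1 : ‖ee (-((m : ℝ) * α))‖ = 1 := by
    exact Pool.Agent.H91.PK.LSa_norm_ee _
  rw [h1, mul_one, Complex.norm_real, Real.norm_eq_abs, abs_of_nonneg h0]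

/-- facts for large `N` -/
private theorem LinBadG_large (θ : ℝ) (hθ : θ < 1 / 3) (hθ0 : 1 / 5 < θ) :
    ∃ N0 : ℕ, ∀ N : ℕ, N0 ≤ N → 12 ≤ Real.log N ∧ 1 ≤ N ∧
      1 ≤ ⌊(N : ℝ) ^ θ⌋₊ ∧ 2 * ⌊(N : ℝ) ^ θ⌋₊ ≤ N := by
  obtain ⟨x1, hx1⟩ := Pool.Agent.H76.GB.log_ge 12
  obtain ⟨x2, hx2⟩ := Pool.Agent.H76.GB.log_pow_le (1 - θ) 2 (by linarith) (by norm_num) 0
  refine ⟨x1 + x2 + 1, fun N hN => ?_⟩
  have g1 := hx1 N (by omega)
  have g2 := hx2 N (by omega)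
  rw [pow_zero, mul_one] at g2
  have hN0 : 0 < N := by omega
  have hNpos : (0 : ℝ) < N := by exact_mod_cast hN0
  have hN1 : (1 : ℝ) ≤ N := by exact_mod_cast hN0
  refine ⟨g1, hN0, ?_, ?_⟩
  · exact (Nat.one_le_floor_iff _).2 (Real.one_le_rpow hN1 (by linarith))
  · have h6 : (N : ℝ) = (N : ℝ) ^ (1 - θ) * (N : ℝ) ^ θ := by
      rw [← Real.rpow_add hNpos, sub_add_cancel, Real.rpow_one]
    have hHle : ((⌊(N : ℝ) ^ θ⌋₊ : ℕ) : ℝ) ≤ (N : ℝ) ^ θ := Nat.floor_le (by positivity)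
    have h8 : 2 * ((⌊(N : ℝ) ^ θ⌋₊ : ℕ) : ℝ) ≤ N := by
      have h9 : 2 * (N : ℝ) ^ θ ≤ (N : ℝ) ^ (1 - θ) * (N : ℝ) ^ θ :=
        mul_le_mul_of_nonneg_right g2 (by positivity)
      linarith
    exact_mod_cast h8

/-- a superset of the bad blocks -/
private theorem LinBadG_sub (N H R A : ℕ) (F κ : ℕ → ℝ) (X : Finset ℕ)
    (h : ∀ i ∈ idx N H, i ∉ X → ∀ α : ℝ,
      ‖Bs (fun m => F m - κ i * lamR R m) H i α‖ ≤ (H : ℝ) / Real.log N ^ A) :
    (badF N H R A F κ).card ≤ X.card := by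
  classical
  apply card_le_card
  intro i hi
  unfold badF at hi
  rw [mem_filter] at hi
  obtain ⟨hi1, α, hα⟩ := hi
  by_contra hcon
  have h1 := h i hi1 hcon α
  have e1 : ∑ m ∈ blk H i, ((F m - κ i * lamR R m : ℝ) : ℂ) * ee (-(α * m)) =
      Bs (fun m => F m - κ i * lamR R m) H i α := by
    unfold Bs blk
    refine sum_congr rfl fun m _ => ?_
    rw [mul_comm α (m : ℝ)]
  rw [e1] at hα
  linarith

theorem lin_bad_g (hVK : VKp) (θ e1 ζ' ζ κ' κ e4 : ℝ) (hP : Par e1 ζ' ζ κ' κ) (hζ : ζ < θ) (hθ2 : θ < 1 / 3)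
    (hTI : TIP θ κ e4) (A : ℕ) :
    ∃ B0 : ℕ, ∀ B : ℕ, B0 ≤ B → ∃ N0 : ℕ, ∀ N : ℕ, N0 ≤ N → ∀ (J J1 Q : ℕ) (S g T : ℕ → ℝ) (kS kT : ℝ),
      Lev ζ' ζ κ' κ N (yN e1 N) J J1 → Adm Q g T → (Q : ℝ) ≤ (N : ℝ) ^ e4 →
      (∀ (i : ℕ) (α : ℝ), 1 ≤ i → ‖Bs (fun m => S m - kS * lamR ⌊Real.log N ^ B⌋₊ m) ⌊(N : ℝ) ^ θ⌋₊ i α‖ ≤
        ⌊(N : ℝ) ^ θ⌋₊ / Real.log N ^ (A + 7)) →
      (∀ (i : ℕ) (α : ℝ), 1 ≤ i → ‖Bs (fun m => T m - kT * lamR ⌊Real.log N ^ B⌋₊ m) ⌊(N : ℝ) ^ θ⌋₊ i α‖ ≤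
        ⌊(N : ℝ) ^ θ⌋₊ / Real.log N ^ (A + 7)) →
      ((badF N (Hn θ N) (Rn B N) A (Ap S (yN e1 N) J) (fun i => kapA kS (yN e1 N) J (i * Hn θ N))).card : ℝ) ≤
        (N : ℝ) / (Hn θ N) / Real.log N ^ A ∧
      ((badF N (Hn θ N) (Rn B N) A (R1 S T (yN e1 N) J J1) (fun i => k1 kS kT (yN e1 N) J J1 (i * Hn θ N))).card : ℝ) ≤
        (N : ℝ) / (Hn θ N) / Real.log N ^ A ∧
      ((badF N (Hn θ N) (Rn B N) A (DD S T (yN e1 N) J1) (fun _ => kS - kT)).card : ℝ) ≤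
        (N : ℝ) / (Hn θ N) / Real.log N ^ A := by
  classical
  obtain ⟨B2, hB2⟩ := lfu_q hVK θ e1 ζ' ζ κ' κ e4 hP hζ hθ2 hTI (A + 3)
  obtain ⟨he1, he1', p3, p4, -, -, -, -⟩ := hP
  obtain ⟨B1, hB1⟩ := lfuA hVK θ ζ e1 he1 (by linarith) hζ (by linarith) (A + 3)
  obtain ⟨N3, hN3⟩ := sqp_blk e1 θ he1 (by linarith) (by linarith) (A + 3)
  obtain ⟨N4, hN4⟩ := LinBadG_large θ hθ2 (by linarith)
  refine ⟨max B1 B2, fun B hB => ?_⟩
  obtain ⟨N1, hN1⟩ := hB1 B (le_trans (le_max_left _ _) hB)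
  obtain ⟨N2, hN2⟩ := hB2 B (le_trans (le_max_right _ _) hB)
  refine ⟨N1 + N2 + N3 + N4, fun N hN J J1 Q S g T kS kT hLev hAdm hQ hS hT => ?_⟩
  obtain ⟨g1, g2, g4, g5⟩ := hN4 N (by omega)
  have hz := hLev.2.2.1
  have hpow : ∀ a b : ℕ, a ≤ b → (⌊(N : ℝ) ^ θ⌋₊ : ℝ) / Real.log N ^ b ≤ ⌊(N : ℝ) ^ θ⌋₊ / Real.log N ^ a := by
    intro a b hab
    have h1 : (0 : ℝ) < Real.log N ^ a := by
      apply pow_pos
      linarith
    exact div_le_div_of_nonneg_left (Nat.cast_nonneg _) h1 (pow_le_pow_right₀ (by linarith) hab)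
  have m1 := hN1 N (by omega) J S kS hz (fun i α hi => (hS i α hi).trans (hpow _ _ (by omega)))
  have m2 := hN2 N (by omega) J J1 Q S g T kS kT hLev hAdm hQ
    (fun i α hi => (hS i α hi).trans (hpow _ _ (by omega))) (fun i α hi => (hT i α hi).trans (hpow _ _ (by omega)))
  have m3 := hN3 N (by omega) J
  have m4 := hN3 N (by omega) J1
  have hH : Hn θ N = ⌊(N : ℝ) ^ θ⌋₊ := rfl
  have hR : Rn B N = ⌊Real.log N ^ B⌋₊ := rfl
  rw [hH, hR]
  clear hN1 hN2 hN3 hN4 hB1 hB2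
  have hbA : ∀ (F κ : ℕ → ℝ) (X : Finset ℕ), (∀ i ∈ idx N ⌊(N : ℝ) ^ θ⌋₊, i ∉ X → ∀ α : ℝ,
      ‖Bs (fun m => F m - κ i * lamR ⌊Real.log N ^ B⌋₊ m) ⌊(N : ℝ) ^ θ⌋₊ i α‖ ≤
        (⌊(N : ℝ) ^ θ⌋₊ : ℝ) / Real.log N ^ A) →
      (badF N ⌊(N : ℝ) ^ θ⌋₊ ⌊Real.log N ^ B⌋₊ A F κ).card ≤ X.card :=
    fun F κ X h => LinBadG_sub N _ _ A F κ X h
  generalize hHH : ⌊(N : ℝ) ^ θ⌋₊ = H at *
  generalize hLL : Real.log N = L at *
  generalize hRR : ⌊L ^ B⌋₊ = R at *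
  generalize hyy : yN e1 N = y at *
  have hL0 : 0 < L := by linarith
  have hH0 : (0 : ℝ) < H := by exact_mod_cast g4
  have hidx : ∀ i ∈ idx N H, i ∈ Icc (N / (2 * H)) (4 * N / H) ∧ 1 ≤ i := by
    intro i hi
    unfold idx at hi
    rw [mem_Icc] at hi ⊢
    have h1 : 1 ≤ N / (2 * H) := by
      rw [Nat.le_div_iff_mul_le (by omega)]
      omega
    have h2 : 3 * N / H ≤ 4 * N / H := Nat.div_le_div_right (by omega)
    omega
  have hsix : 6 * ((H : ℝ) / L ^ (A + 3)) ≤ H / L ^ A := by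
    have e1 : 6 * ((H : ℝ) / L ^ (A + 3)) = H / L ^ A * (6 / L ^ 3) := by
      rw [pow_add]
      field_simp
    rw [e1]
    have h5 : 6 / L ^ 3 ≤ 1 := by
      rw [div_le_one (by positivity)]
      have h6 : L * 1 ≤ L * L ^ 2 := mul_le_mul_of_nonneg_left (by nlinarith) hL0.le
      have h7 : L ^ 3 = L * L ^ 2 := by ring
      linarith
    calc (H : ℝ) / L ^ A * (6 / L ^ 3) ≤ H / L ^ A * 1 :=
          mul_le_mul_of_nonneg_left h5 (by positivity)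
      _ = H / L ^ A := mul_one _
  have hHp : 0 ≤ (H : ℝ) / L ^ (A + 3) := by positivity
  have hthree : 3 * ((N : ℝ) / H / L ^ (A + 3)) ≤ N / H / L ^ A := by
    have e1 : 3 * ((N : ℝ) / H / L ^ (A + 3)) = N / H / L ^ A * (3 / L ^ 3) := by
      rw [pow_add]
      field_simp
    rw [e1]
    have h6 : 3 / L ^ 3 ≤ 1 := by
      rw [div_le_one (by positivity)]
      have h6 : L * 1 ≤ L * L ^ 2 := mul_le_mul_of_nonneg_left (by nlinarith) hL0.le
      have h7 : L ^ 3 = L * L ^ 2 := by ring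
      linarith
    calc (N : ℝ) / H / L ^ A * (3 / L ^ 3) ≤ N / H / L ^ A * 1 :=
          mul_le_mul_of_nonneg_left h6 (by positivity)
      _ = N / H / L ^ A := mul_one _
  have hNp : 0 ≤ (N : ℝ) / H / L ^ (A + 3) := by positivity
  -- outside the bad sets
  have oA : ∀ i ∈ idx N H, i ∉ badA S kS y J R N H (A + 3) → ∀ α : ℝ,
      ‖Bs (fun m => Ap S y J m - kapA kS y J (i * H) * lamR R m) H i α‖ ≤ H / L ^ (A + 3) := by
    intro i hi hx α
    by_contra hcon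
    apply hx
    unfold badA
    rw [mem_filter, hLL]
    exact ⟨(hidx i hi).1, α, lt_of_not_ge hcon⟩
  have oQ : ∀ i ∈ idx N H, i ∉ badQ S T kS kT y J J1 R N H (A + 3) → ∀ α : ℝ,
      ‖Bs (fun m => Fq S T y J J1 m - kapF kS kT y J J1 (i * H) * lamR R m) H i α‖ ≤ H / L ^ (A + 3) := by
    intro i hi hx α
    by_contra hcon
    apply hx
    unfold badQ
    rw [mem_filter, hLL]
    exact ⟨(hidx i hi).1, α, lt_of_not_ge hcon⟩
  have oS : ∀ J' : ℕ, ∀ i ∈ idx N H, i ∉ (Icc (N / (2 * H)) (4 * N / H)).filter (fun i => (H : ℝ) / L ^ (A + 3) <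
        ∑ m ∈ Ico (i * H) ((i + 1) * H), sqp y J' m) → ∀ α : ℝ,
      ‖Bs (fun m => sqp y J' m) H i α‖ ≤ H / L ^ (A + 3) := by
    intro J' i hi hx α
    refine (LinBadG_sqp y J' H i α).trans ?_
    by_contra hcon
    apply hx
    rw [mem_filter]
    exact ⟨(hidx i hi).1, lt_of_not_ge hcon⟩
  refine ⟨?_, ?_, ?_⟩
  · have h1 := hbA (Ap S y J) (fun i => kapA kS y J (i * H)) (badA S kS y J R N H (A + 3)) (by
      intro i hi hx α
      have h2 := oA i hi hx α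
      linarith)
    have h2 : ((badF N H R A (Ap S y J) (fun i => kapA kS y J (i * H))).card : ℝ) ≤
        ((badA S kS y J R N H (A + 3)).card : ℝ) := by exact_mod_cast h1
    linarith
  · have h1 := hbA (R1 S T y J J1) (fun i => k1 kS kT y J J1 (i * H))
      (badA S kS y J R N H (A + 3) ∪ badQ S T kS kT y J J1 R N H (A + 3) ∪
        (Icc (N / (2 * H)) (4 * N / H)).filter (fun i => (H : ℝ) / L ^ (A + 3) <
        ∑ m ∈ Ico (i * H) ((i + 1) * H), sqp y J m)) (by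
      intro i hi hx α
      rw [mem_union, mem_union, not_or, not_or] at hx
      obtain ⟨⟨x1, x2⟩, x3⟩ := hx
      have a1 := oA i hi x1 α
      have a2 := oQ i hi x2 α
      have a3 := oS J i hi x3 α
      have e1 : Bs (fun m => R1 S T y J J1 m - k1 kS kT y J J1 (i * H) * lamR R m) H i α =
          2 * (Bs (fun m => Ap S y J m - kapA kS y J (i * H) * lamR R m) H i α
            - Bs (fun m => Fq S T y J J1 m - kapF kS kT y J J1 (i * H) * lamR R m) H i α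
            + Bs (fun m => sqp y J m) H i α) := by
        rw [← LinBadG_Bs_sub, ← LinBadG_Bs_add, ← LinBadG_Bs_two]
        congr 1
        funext m
        unfold R1 k1
        ring
      rw [e1, norm_mul, Complex.norm_ofNat]
      have b1 := norm_add_le (Bs (fun m => Ap S y J m - kapA kS y J (i * H) * lamR R m) H i α
            - Bs (fun m => Fq S T y J J1 m - kapF kS kT y J J1 (i * H) * lamR R m) H i α)
            (Bs (fun m => sqp y J m) H i α)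
      have b2 := norm_sub_le (Bs (fun m => Ap S y J m - kapA kS y J (i * H) * lamR R m) H i α)
            (Bs (fun m => Fq S T y J J1 m - kapF kS kT y J J1 (i * H) * lamR R m) H i α)
      linarith)
    have hc1 := (h1.trans (card_union_le _ _)).trans (Nat.add_le_add_right (card_union_le _ _) _)
    have h2 : ((badF N H R A (R1 S T y J J1) (fun i => k1 kS kT y J J1 (i * H))).card : ℝ) ≤
        ((badA S kS y J R N H (A + 3)).card : ℝ) + ((badQ S T kS kT y J J1 R N H (A + 3)).card : ℝ) +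
        (((Icc (N / (2 * H)) (4 * N / H)).filter (fun i => (H : ℝ) / L ^ (A + 3) <
        ∑ m ∈ Ico (i * H) ((i + 1) * H), sqp y J m)).card : ℝ) := by exact_mod_cast hc1
    linarith
  · have h1 := hbA (DD S T y J1) (fun _ => kS - kT)
      ((Icc (N / (2 * H)) (4 * N / H)).filter (fun i => (H : ℝ) / L ^ (A + 3) <
        ∑ m ∈ Ico (i * H) ((i + 1) * H), sqp y J1 m)) (by
      intro i hi hx α
      have a3 := oS J1 i hi hx α
      have hi0 := (hidx i hi).2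
      have a1 := hS i α hi0
      have a2 := hT i α hi0
      have a4 := hpow (A + 3) (A + 7) (by omega)
      have e1 : Bs (fun m => DD S T y J1 m - (kS - kT) * lamR R m) H i α =
          Bs (fun m => S m - kS * lamR R m) H i α
            - Bs (fun m => T m - kT * lamR R m) H i α
            + Bs (fun m => sqp y J1 m) H i α := by
        rw [← LinBadG_Bs_sub, ← LinBadG_Bs_add]
        congr 1
        funext m
        unfold DD
        ring
      rw [e1]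
      have b1 := norm_add_le (Bs (fun m => S m - kS * lamR R m) H i α
            - Bs (fun m => T m - kT * lamR R m) H i α)
            (Bs (fun m => sqp y J1 m) H i α)
      have b2 := norm_sub_le (Bs (fun m => S m - kS * lamR R m) H i α)
            (Bs (fun m => T m - kT * lamR R m) H i α)
      linarith)
    have h2 : ((badF N H R A (DD S T y J1) (fun _ => kS - kT)).card : ℝ) ≤
        (((Icc (N / (2 * H)) (4 * N / H)).filter (fun i => (H : ℝ) / L ^ (A + 3) <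
        ∑ m ∈ Ico (i * H) ((i + 1) * H), sqp y J1 m)).card : ℝ) := by exact_mod_cast h1
    linarith

end Pool.Agent.H91.TL
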