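import Pool.Agent.H46.TPQ.Defs
import Pool.Agent.H91.TQ.Ram

/-!
# TL LinSecG: (`LinSec.lean` with a general lower bound of `z`) second moments of `R0 = Ap S`, `R1`, `DD` on the blocks (compare `H91/TQ/SecQ.lean`)

`1 ≤ m ≤ 16N`, `z ≥ N^(51/250)`, `5 · 51/250 > 1`: `om m ≤ 4` (five primes `> z` have a product `> 16N`).
* `Ap S y J m = S m - (rg y m - AA y J m)`, `0 ≤ rg - AA ≤ 1` (`rg - AA = ∑_j Fp bf P_j m ≥ 0`; `aa_nonneg`, `rg ≤ 1`): `|Ap| ≤ |S| + 1`.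
* `r1_eq`: `R1 = om (T - rg + AA)` for `m ≥ 1`: `fq_eq` gives `Fq = (S - rg) + (om/2)(rg - T) + (1 - om/2) AA + sqp` and `Ap = S - rg + AA`, so `Ap - Fq + sqp = (om/2)(T - rg + AA)`.  So `|R1| ≤ 4 (|T| + 1)`.
* `|DD| ≤ |S| + |T| + sqp`, `0 ≤ sqp ≤ ω(m) ≤ 2 log m ≤ 2L + 6`.
`(a+b+c)² ≤ 3(a² + b² + c²)`: all three second moments are `≤ w L^(C+3)` for large `N`.
-/

set_option autoImplicit false

namespace Pool.Agent.H91.TL

open Finset
open Pool.Agent.H53.MID (Fp Bs)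
open Pool.Agent.H76.TP
open Pool.Agent.H91.TQ
open Pool.Agent.H46.TPQ (R1 DD)

private theorem LinSecG_rg_le (y m : ℕ) : rg y m ≤ 1 := by
  unfold rg
  split_ifs <;> norm_num

private theorem LinSecG_sum_nonneg (y J m : ℕ) : 0 ≤ ∑ j ∈ range J, Fp (bf y J) (2 ^ j * y) m := by
  refine Finset.sum_nonneg fun j _ => ?_
  unfold Pool.Agent.H53.MID.Fp
  exact Finset.sum_nonneg fun p _ => bf_nonneg y J (m / p)

private theorem LinSecG_Ap (S : ℕ → ℝ) (y J m : ℕ) : Ap S y J m = S m - (rg y m - AA y J m) := by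
  unfold Ap AA
  ring

private theorem LinSecG_rgAA (y J m : ℕ) (hm : 1 ≤ m) : 0 ≤ rg y m - AA y J m ∧ rg y m - AA y J m ≤ 1 := by
  constructor
  · have h4 : rg y m - AA y J m = ∑ j ∈ range J, Fp (bf y J) (2 ^ j * y) m := by
      unfold AA
      ring
    rw [h4]
    exact LinSecG_sum_nonneg y J m
  · have h6 := aa_nonneg y J m hm
    have h7 := LinSecG_rg_le y m
    linarith

theorem r1_eq_g (S T : ℕ → ℝ) (y J J1 m : ℕ) (hm : 1 ≤ m) :
    R1 S T y J J1 m = (om y J J1 m : ℝ) * (T m - rg y m + AA y J m) := by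
  unfold R1
  rw [LinSecG_Ap S y J m, fq_eq S T y J J1 m hm]
  ring

theorem om_le4_g : ∃ N0 : ℕ, ∀ N : ℕ, N0 ≤ N → ∀ y J J1 m : ℕ, 1 ≤ m → m ≤ 16 * N → (N : ℝ) ^ (51 / 250 : ℝ) ≤ zz y J →
    om y J J1 m ≤ 4 := by
  have e1 : ∀ᶠ N : ℕ in Filter.atTop, (17 : ℝ) ≤ (N : ℝ) ^ (5 * (51 / 250 : ℝ) - 1) :=
    ((tendsto_rpow_atTop (by norm_num)).comp
      (tendsto_natCast_atTop_atTop (R := ℝ))).eventually_ge_atTop _
  obtain ⟨N0, hN0⟩ := Filter.eventually_atTop.1 (e1.and (Filter.eventually_ge_atTop 1))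
  refine ⟨N0, fun N hN y J J1 m hm1 hm2 hz => ?_⟩
  obtain ⟨g1, g3⟩ := hN0 N hN
  have hN : (0 : ℝ) < N := by exact_mod_cast g3
  have hp1 : 0 < (N : ℝ) ^ (51 / 250 : ℝ) := Real.rpow_pos_of_pos hN _
  have hzpos : 1 ≤ zz y J := by
    have : (0 : ℝ) < zz y J := lt_of_lt_of_le hp1 hz
    exact_mod_cast this
  have hz5 : m < zz y J ^ 5 := by
    have h1 : ((N : ℝ) ^ (51 / 250 : ℝ)) ^ 5 ≤ (zz y J : ℝ) ^ 5 := pow_le_pow_left₀ hp1.le hz 5
    have h2 : ((N : ℝ) ^ (51 / 250 : ℝ)) ^ 5 = (N : ℝ) ^ (5 * (51 / 250 : ℝ) - 1) * N := by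
      rw [← Real.rpow_natCast, ← Real.rpow_mul hN.le]
      conv_rhs => rw [← Real.rpow_one (N : ℝ)]
      rw [← Real.rpow_mul hN.le, ← Real.rpow_add hN]
      congr 1
      push_cast
      ring
    have h3 : 17 * (N : ℝ) ≤ (N : ℝ) ^ (5 * (51 / 250 : ℝ) - 1) * N := mul_le_mul_of_nonneg_right g1 hN.le
    have h4 : (m : ℝ) ≤ 16 * N := by exact_mod_cast hm2
    have h5 : (m : ℝ) < (zz y J : ℝ) ^ 5 := by linarith
    exact_mod_cast h5
  by_contra hcon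
  have h4 : 5 ≤ om y J J1 m := by omega
  have hsub : m.primeFactors.filter (fun p => zz y J < p ∧ p ≤ zz y J1) ⊆ m.primeFactors :=
    filter_subset _ _
  have h1 : zz y J ^ om y J J1 m ≤ ∏ p ∈ m.primeFactors.filter (fun p => zz y J < p ∧ p ≤ zz y J1), p := by
    unfold om
    exact Finset.pow_card_le_prod _ (fun p => p) (zz y J) (fun p hp => by
      rw [mem_filter] at hp
      exact hp.2.1.le)
  have h2 : (∏ p ∈ m.primeFactors.filter (fun p => zz y J < p ∧ p ≤ zz y J1), p) ∣ m :=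
    (Finset.prod_dvd_prod_of_subset _ m.primeFactors (fun p => p) hsub).trans (Nat.prod_primeFactors_dvd m)
  have h3 := Nat.le_of_dvd hm1 h2
  have h5 : zz y J ^ 5 ≤ zz y J ^ om y J J1 m := Nat.pow_le_pow_right hzpos h4
  omega

/-- `2 ^ card ≤ m` -/
private theorem LinSecG_two_pow (m : ℕ) (hm : m ≠ 0) : 2 ^ m.primeFactors.card ≤ m := by
  have h1 : ∏ p ∈ m.primeFactors, p ≤ m := Nat.le_of_dvd (Nat.pos_of_ne_zero hm) (Nat.prod_primeFactors_dvd m)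
  have h2 : ∏ _p ∈ m.primeFactors, 2 ≤ ∏ p ∈ m.primeFactors, p :=
    Finset.prod_le_prod' fun p hp => (Nat.prime_of_mem_primeFactors hp).two_le
  rw [Finset.prod_const] at h2
  exact h2.trans h1

private theorem LinSecG_sqp (y J m : ℕ) (hm : 1 ≤ m) : sqp y J m ≤ 2 * Real.log m := by
  unfold sqp
  have hsub : ((PY y (zz y J)).filter (fun p => p ^ 2 ∣ m)) ⊆ m.primeFactors := by
    intro p hp
    rw [Finset.mem_filter] at hp
    have hpp : p.Prime := by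
      have h := hp.1
      unfold PY at h
      exact (Finset.mem_filter.1 h).2
    rw [Nat.mem_primeFactors]
    exact ⟨hpp, (Dvd.intro_left (p ^ 1) (by ring)).trans hp.2, by omega⟩
  have h1 : (((PY y (zz y J)).filter (fun p => p ^ 2 ∣ m)).card : ℝ) ≤ m.primeFactors.card := by
    exact_mod_cast Finset.card_le_card hsub
  have h2 : (m.primeFactors.card : ℝ) * Real.log 2 ≤ Real.log m := by
    rw [← Real.log_pow]
    apply Real.log_le_log (by positivity)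
    exact_mod_cast LinSecG_two_pow m (by omega)
  have h3 : (1 / 2 : ℝ) ≤ Real.log 2 := by
    have := Real.log_two_gt_d9
    linarith
  have h4 : (0 : ℝ) ≤ (m.primeFactors.card : ℝ) := Nat.cast_nonneg _
  nlinarith [mul_le_mul_of_nonneg_left h3 h4]

theorem lin_sec_g (C : ℕ) : ∃ N0 : ℕ, ∀ N : ℕ, N0 ≤ N → ∀ (y J J1 : ℕ) (S T : ℕ → ℝ), 1 ≤ y → (N : ℝ) ^ (51 / 250 : ℝ) ≤ zz y J →
    (∀ u w : ℕ, 1 ≤ u → (N : ℝ) ^ (1 / 8 : ℝ) ≤ w → ∑ m ∈ Ico u (u + w), S m ^ 2 ≤ w * Real.log N ^ C) →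
    (∀ u w : ℕ, 1 ≤ u → (N : ℝ) ^ (1 / 8 : ℝ) ≤ w → ∑ m ∈ Ico u (u + w), T m ^ 2 ≤ w * Real.log N ^ C) →
    ∀ u w : ℕ, 1 ≤ u → (N : ℝ) ^ (1 / 8 : ℝ) ≤ w → u + w ≤ 16 * N →
      ∑ m ∈ Ico u (u + w), Ap S y J m ^ 2 ≤ w * Real.log N ^ (C + 3) ∧
      ∑ m ∈ Ico u (u + w), R1 S T y J J1 m ^ 2 ≤ w * Real.log N ^ (C + 3) ∧
      ∑ m ∈ Ico u (u + w), DD S T y J1 m ^ 2 ≤ w * Real.log N ^ (C + 3) := by
  obtain ⟨N1, hN1⟩ := om_le4_g
  have hlog : ∃ N2 : ℕ, ∀ N : ℕ, N2 ≤ N → (60 : ℝ) ≤ Real.log N := by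
    have h1 : Filter.Tendsto (fun n : ℕ => Real.log (n : ℝ)) Filter.atTop Filter.atTop :=
      Real.tendsto_log_atTop.comp tendsto_natCast_atTop_atTop
    exact Filter.eventually_atTop.1 (h1.eventually_ge_atTop 60)
  obtain ⟨N2, hN2⟩ := hlog
  refine ⟨max N1 (max N2 1), fun N hN y J J1 S T hy hL hS hT u w hu hw huw => ?_⟩
  have hNa : N1 ≤ N := le_trans (le_max_left _ _) hN
  have hNb : N2 ≤ N := le_trans (le_trans (le_max_left _ _) (le_max_right _ _)) hN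
  have hNc : 1 ≤ N := le_trans (le_trans (le_max_right _ _) (le_max_right _ _)) hN
  have hL60 := hN2 N hNb
  have hz : (N : ℝ) ^ (51 / 250 : ℝ) ≤ zz y J := hL
  have hS' := hS u w hu hw
  have hT' := hT u w hu hw
  clear hS hT
  have hlm : ∀ m ∈ Ico u (u + w), Real.log m ≤ Real.log N + 3 := by
    intro m hm
    rw [Finset.mem_Ico] at hm
    have hm1 : 1 ≤ m := by omega
    have hm16 : m ≤ 16 * N := by omega
    have h1 : Real.log m ≤ Real.log (16 * N) := by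
      apply Real.log_le_log
      · exact_mod_cast hm1
      · exact_mod_cast hm16
    have hN0 : (0 : ℝ) < N := by exact_mod_cast hNc
    rw [Real.log_mul (by norm_num) hN0.ne'] at h1
    have h2 : Real.log 16 ≤ 3 := by
      have h3 : (16 : ℝ) = 2 ^ 4 := by norm_num
      rw [h3, Real.log_pow]
      have := Real.log_two_lt_d9
      push_cast
      linarith
    linarith
  generalize hLdef : Real.log N = L at *
  have hL1 : (1 : ℝ) ≤ L := by linarith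
  have hw0 : (0 : ℝ) ≤ (w : ℝ) := Nat.cast_nonneg _
  have h1 : L ^ C ≤ L ^ (C + 2) := pow_le_pow_right₀ hL1 (by omega)
  have h2 : (1 : ℝ) ≤ L ^ (C + 2) := one_le_pow₀ hL1
  have h3 : L ^ 2 ≤ L ^ (C + 2) := pow_le_pow_right₀ hL1 (by omega)
  have h4 : L ^ (C + 3) = L * L ^ (C + 2) := by ring
  have hC0 : 0 ≤ L ^ C := by positivity
  have hfin : ∀ (f : ℕ → ℝ) (a b c : ℝ), 0 ≤ a → 0 ≤ b → 
      (∀ m ∈ Ico u (u + w), f m ^ 2 ≤ a * S m ^ 2 + b * T m ^ 2 + c) →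
      (a + b) * L ^ C + c ≤ L ^ (C + 3) →
      ∑ m ∈ Ico u (u + w), f m ^ 2 ≤ w * L ^ (C + 3) := by
    intro f a b c ha hb hpt hfin
    have hsum := Finset.sum_le_sum hpt
    rw [Finset.sum_add_distrib, Finset.sum_add_distrib, ← Finset.mul_sum, ← Finset.mul_sum,
      Finset.sum_const, Nat.card_Ico, Nat.add_sub_cancel_left, nsmul_eq_mul] at hsum
    refine hsum.trans ?_
    have i1 := mul_le_mul_of_nonneg_left hS' ha
    have i2 := mul_le_mul_of_nonneg_left hT' hb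
    calc a * ∑ m ∈ Ico u (u + w), S m ^ 2 + b * ∑ m ∈ Ico u (u + w), T m ^ 2 + (w : ℝ) * c
        ≤ a * (w * L ^ C) + b * (w * L ^ C) + w * c := by linarith
      _ = w * ((a + b) * L ^ C + c) := by ring
      _ ≤ w * L ^ (C + 3) := mul_le_mul_of_nonneg_left hfin hw0
  refine ⟨hfin _ 2 0 2 (by norm_num) (by norm_num) ?_ ?_, hfin _ 0 32 32 (by norm_num) (by norm_num) ?_ ?_,
    hfin _ 3 3 (27 * L ^ 2) (by norm_num) (by norm_num) ?_ ?_⟩
  · intro m hm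
    rw [Finset.mem_Ico] at hm
    have hm1 : 1 ≤ m := by omega
    obtain ⟨k1, k2⟩ := LinSecG_rgAA y J m hm1
    rw [LinSecG_Ap]
    generalize S m = a
    generalize rg y m - AA y J m = b at *
    nlinarith [sq_nonneg (a + b)]
  · rw [h4]
    nlinarith
  · intro m hm
    rw [Finset.mem_Ico] at hm
    have hm1 : 1 ≤ m := by omega
    have hm16 : m ≤ 16 * N := by omega
    obtain ⟨k1, k2⟩ := LinSecG_rgAA y J m hm1
    have ho := hN1 N hNa y J J1 m hm1 hm16 hz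
    have ho3 : (om y J J1 m : ℝ) ≤ 4 := by exact_mod_cast ho
    have ho0 : (0 : ℝ) ≤ (om y J J1 m : ℝ) := Nat.cast_nonneg _
    rw [r1_eq_g S T y J J1 m hm1]
    have e : T m - rg y m + AA y J m = T m - (rg y m - AA y J m) := by ring
    rw [e, mul_pow]
    generalize T m = a
    generalize rg y m - AA y J m = b at *
    generalize (om y J J1 m : ℝ) = c at *
    have i1 : c ^ 2 ≤ 16 := by nlinarith
    have i2 : (a - b) ^ 2 ≤ 2 * a ^ 2 + 2 := by nlinarith [sq_nonneg (a + b)]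
    have i3 : c ^ 2 * (a - b) ^ 2 ≤ 16 * (2 * a ^ 2 + 2) :=
      mul_le_mul i1 i2 (sq_nonneg _) (by norm_num)
    nlinarith
  · rw [h4]
    nlinarith
  · intro m hm
    have hlm' := hlm m hm
    rw [Finset.mem_Ico] at hm
    have hm1 : 1 ≤ m := by omega
    have hs := LinSecG_sqp y J1 m hm1
    have hs0 : 0 ≤ sqp y J1 m := by
      unfold sqp
      exact Nat.cast_nonneg _
    have hs3 : sqp y J1 m ≤ 3 * L := by linarith
    unfold DD
    generalize S m = a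
    generalize T m = b
    generalize sqp y J1 m = d at *
    have i1 : (a - b + d) ^ 2 ≤ 3 * (a ^ 2 + b ^ 2 + d ^ 2) := by
      nlinarith [sq_nonneg (a + b), sq_nonneg (a - d), sq_nonneg (b + d)]
    have i2 : d ^ 2 ≤ 9 * L ^ 2 := by
      have : d ^ 2 ≤ (3 * L) ^ 2 := pow_le_pow_left₀ hs0 hs3 2
      linarith
    linarith
  · rw [h4]
    nlinarith

end Pool.Agent.H91.TL
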