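import Pool.Agent.H91.TL.SvP
import Pool.Agent.H91.TL.LinSecG
import Pool.Agent.H91.TL.LinBadG
import Pool.Agent.H91.TQ.TIw
import Pool.Agent.H91.TQ.KStepQ
import Pool.Agent.H76.TP.KStep
import Pool.Agent.H56.TI2.TIw

/-!
# TL LinG: the LFU black box for general levels

`LINg θ ζ' ζ κ' κ` is `LIN θ` of `H46/TPQ/Defs.lean` with `Lev ζ' ζ κ' κ` in place of `LevQ`.  `lin_g`: it holds if `51/250 ≤ ζ' < ζ < 27/100`, `3/10 < κ' < κ`, `ζ + κ < 59/100`, `ζ < θ < 1/3` and `4κ < 1 + 2θ` (`tip2`).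
-/

set_option autoImplicit false

namespace Pool.Agent.H91.TL

open Finset
open Pool.Agent.H91.PK (ee)
open Pool.Agent.H91.EHA (Lam lamR ramS)
open Pool.Agent.H43.MP (blk Hn idx Rn)
open Pool.Agent.H43.TP (badF)
open Pool.Agent.H53.MID (Fp Bs VKp)
open Pool.Agent.H76.TP
open Pool.Agent.H91.TQ
open Pool.Agent.H46.TPQ (LevQ R1 DD k1 SvI LIN)

/-- the LFU black box, general levels -/
def LINg (θ ζ' ζ κ' κ : ℝ) : Prop := ∀ ε : ℝ, 0 < ε → ∃ e1 : ℝ, 0 < e1 ∧ e1 ≤ 1 / 100 ∧ ∃ C : ℕ, ∀ A : ℕ, ∃ B N0 : ℕ, ∀ N : ℕ, N0 ≤ N →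
  ∃ (J J1 : ℕ) (S T : ℕ → ℝ) (kS kT : ℝ), Lev ζ' ζ κ' κ N (yN e1 N) J J1 ∧ SvI N (yN e1 N) ε S T kS kT ∧
    (∀ i ∈ idx N (Hn θ N),
      ∑ m ∈ blk (Hn θ N) i, Ap S (yN e1 N) J m ^ 2 ≤ Hn θ N * Real.log N ^ C ∧
      ∑ m ∈ blk (Hn θ N) i, R1 S T (yN e1 N) J J1 m ^ 2 ≤ Hn θ N * Real.log N ^ C ∧
      ∑ m ∈ blk (Hn θ N) i, DD S T (yN e1 N) J1 m ^ 2 ≤ Hn θ N * Real.log N ^ C) ∧
    (∀ i ∈ idx N (Hn θ N), i + 1 ∈ idx N (Hn θ N) →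
      |kapA kS (yN e1 N) J (i * Hn θ N) - kapA kS (yN e1 N) J ((i + 1) * Hn θ N)| ≤ 1 / Real.log N ^ A ∧
      |k1 kS kT (yN e1 N) J J1 (i * Hn θ N) - k1 kS kT (yN e1 N) J J1 ((i + 1) * Hn θ N)| ≤ 1 / Real.log N ^ A) ∧
    ((badF N (Hn θ N) (Rn B N) A (Ap S (yN e1 N) J) (fun i => kapA kS (yN e1 N) J (i * Hn θ N))).card : ℝ) ≤
      (N : ℝ) / (Hn θ N) / Real.log N ^ A ∧
    ((badF N (Hn θ N) (Rn B N) A (R1 S T (yN e1 N) J J1) (fun i => k1 kS kT (yN e1 N) J J1 (i * Hn θ N))).card : ℝ) ≤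
      (N : ℝ) / (Hn θ N) / Real.log N ^ A ∧
    ((badF N (Hn θ N) (Rn B N) A (DD S T (yN e1 N) J1) (fun _ => kS - kT)).card : ℝ) ≤
      (N : ℝ) / (Hn θ N) / Real.log N ^ A

private theorem LinG_pow (a b c : ℝ) (hab : a < b) : ∃ N0 : ℕ, ∀ N : ℕ, N0 ≤ N →
    c * (N : ℝ) ^ a ≤ (N : ℝ) ^ b := by
  have h1 := (tendsto_rpow_atTop (show 0 < b - a by linarith)).comp tendsto_natCast_atTop_atTop
  obtain ⟨N1, hN1⟩ := Filter.eventually_atTop.1 (h1.eventually (Filter.eventually_ge_atTop c))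
  refine ⟨max N1 1, fun N hN => ?_⟩
  have h2 : c ≤ (N : ℝ) ^ (b - a) := hN1 N (le_trans (le_max_left _ _) hN)
  have h3 : 1 ≤ N := le_trans (le_max_right _ _) hN
  have h4 : (0 : ℝ) < N := by exact_mod_cast (by omega : 0 < N)
  calc c * (N : ℝ) ^ a ≤ (N : ℝ) ^ (b - a) * (N : ℝ) ^ a :=
        mul_le_mul_of_nonneg_right h2 (Real.rpow_nonneg h4.le _)
    _ = (N : ℝ) ^ b := by
        rw [← Real.rpow_add h4]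
        congr 1
        ring

/-- a level between two powers -/
private theorem LinG_lev (e1 a b : ℝ) (h0 : 0 ≤ e1) (h1 : e1 ≤ b) (h2 : a < b) : ∃ N0 : ℕ, ∀ N : ℕ, N0 ≤ N →
    ∃ J : ℕ, (N : ℝ) ^ a ≤ zz (yN e1 N) J ∧ (zz (yN e1 N) J : ℝ) ≤ (N : ℝ) ^ b := by
  obtain ⟨N1, hN1⟩ := LinG_pow a b 2 h2
  refine ⟨max N1 1, fun N hN => ?_⟩
  have g1 := hN1 N (le_trans (le_max_left _ _) hN)
  have g2 : 1 ≤ N := le_trans (le_max_right _ _) hN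
  have g3 : (1 : ℝ) ≤ N := by exact_mod_cast g2
  have g4 : 1 ≤ (N : ℝ) ^ e1 := Real.one_le_rpow g3 h0
  have g5 : 1 ≤ yN e1 N := Nat.le_floor (by exact_mod_cast g4)
  have g6 : (1 : ℝ) ≤ (yN e1 N : ℝ) := by exact_mod_cast g5
  have g7 : (yN e1 N : ℝ) ≤ (N : ℝ) ^ e1 := Nat.floor_le (by linarith)
  have g8 : (N : ℝ) ^ e1 ≤ (N : ℝ) ^ b := Real.rpow_le_rpow_of_exponent_le g3 h1
  have g9 : (0 : ℝ) < (yN e1 N : ℝ) := by linarith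
  obtain ⟨n, hn1, hn2⟩ := exists_nat_pow_near (x := (N : ℝ) ^ b / (yN e1 N : ℝ)) (y := (2 : ℝ))
    ((one_le_div g9).2 (by linarith)) (by norm_num)
  rw [le_div_iff₀ g9] at hn1
  rw [div_lt_iff₀ g9, pow_succ] at hn2
  refine ⟨n, ?_, ?_⟩
  · unfold zz
    push_cast
    linarith
  · unfold zz
    push_cast
    exact hn1

private theorem LinG_Lev (e1 ζ' ζ κ' κ : ℝ) (hP : Par e1 ζ' ζ κ' κ) : ∃ N0 : ℕ, ∀ N : ℕ, N0 ≤ N →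
    ∃ J J1 : ℕ, Lev ζ' ζ κ' κ N (yN e1 N) J J1 := by
  obtain ⟨p1, p2, p3, p4, p5, p6, p7, p8⟩ := hP
  obtain ⟨N1, hN1⟩ := LinG_lev e1 ζ' ζ p1.le (by linarith) p4
  obtain ⟨N2, hN2⟩ := LinG_lev e1 κ' κ p1.le (by linarith) p7
  refine ⟨max (max N1 N2) 2, fun N hN => ?_⟩
  obtain ⟨J, a1, a2⟩ := hN1 N (le_trans (le_trans (le_max_left _ _) (le_max_left _ _)) hN)
  obtain ⟨J1, b1, b2⟩ := hN2 N (le_trans (le_trans (le_max_right _ _) (le_max_left _ _)) hN)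
  have g2 : 2 ≤ N := le_trans (le_max_right _ _) hN
  have g3 : (1 : ℝ) < N := by exact_mod_cast (by omega : 1 < N)
  refine ⟨J, J1, ?_, a1, a2, b1, b2⟩
  have h1 : (zz (yN e1 N) J : ℝ) < zz (yN e1 N) J1 :=
    lt_of_le_of_lt a2 (lt_of_lt_of_le (Real.rpow_lt_rpow_of_exponent_lt g3 (by linarith)) b1)
  have h2 : zz (yN e1 N) J < zz (yN e1 N) J1 := by exact_mod_cast h1
  unfold zz at h2
  by_contra hcon
  push Not at hcon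
  have h3 : 2 ^ J1 * yN e1 N ≤ 2 ^ J * yN e1 N :=
    Nat.mul_le_mul_right _ (Nat.pow_le_pow_right (by norm_num) hcon.le)
  omega

private theorem LinG_large (θ : ℝ) (hθ : 1 / 5 < θ) (hθ2 : θ < 1 / 3) : ∃ N0 : ℕ, ∀ N : ℕ, N0 ≤ N →
    12 ≤ Real.log N ∧ (N : ℝ) ^ (1 / 8 : ℝ) ≤ ⌊(N : ℝ) ^ θ⌋₊ ∧ 64 * ⌊(N : ℝ) ^ θ⌋₊ ≤ N ∧
      (⌊(N : ℝ) ^ θ⌋₊ : ℝ) ≤ (N : ℝ) ^ (1 / 2 : ℝ) ∧ 1 ≤ ⌊(N : ℝ) ^ θ⌋₊ := by
  obtain ⟨N1, hN1⟩ := LinG_pow (1 / 8) θ 2 (by linarith)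
  obtain ⟨N2, hN2⟩ := LinG_pow θ 1 64 (by linarith)
  obtain ⟨N3, hN3⟩ := Pool.Agent.H76.GB.log_ge 12
  refine ⟨N1 + N2 + N3 + 3, fun N hN => ?_⟩
  have g1 := hN1 N (by omega)
  have g2 := hN2 N (by omega)
  have g3 := hN3 N (by omega)
  have g4 : (1 : ℝ) ≤ N := by exact_mod_cast (by omega : 1 ≤ N)
  rw [Real.rpow_one] at g2
  have h1 : 1 ≤ (N : ℝ) ^ (1 / 8 : ℝ) := Real.one_le_rpow g4 (by norm_num)
  have h2 := Nat.lt_floor_add_one ((N : ℝ) ^ θ)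
  have h3 : ((⌊(N : ℝ) ^ θ⌋₊ : ℕ) : ℝ) ≤ (N : ℝ) ^ θ := Nat.floor_le (by positivity)
  have h4 : (N : ℝ) ^ θ ≤ (N : ℝ) ^ (1 / 2 : ℝ) := Real.rpow_le_rpow_of_exponent_le g4 (by linarith)
  refine ⟨g3, by linarith, ?_, by linarith, ?_⟩
  · have : (64 : ℝ) * ((⌊(N : ℝ) ^ θ⌋₊ : ℕ) : ℝ) ≤ N := by linarith
    exact_mod_cast this
  · exact (Nat.one_le_floor_iff _).2 (Real.one_le_rpow g4 (by linarith))

private theorem LinG_idx {N H i : ℕ} (hH : 1 ≤ H) (hN : 64 * H ≤ N) (hi : i ∈ idx N H) :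
    1 ≤ i ∧ N ≤ 8 * (i * H) ∧ i * H + H ≤ 16 * N ∧ 1 ≤ i * H := by
  unfold idx at hi
  rw [mem_Icc] at hi
  obtain ⟨h1, h2⟩ := hi
  have h3 : 32 ≤ N / (2 * H) := by
    rw [Nat.le_div_iff_mul_le (by omega)]
    omega
  have h4 : i * H ≤ 3 * N := by
    calc i * H ≤ 3 * N / H * H := Nat.mul_le_mul_right H h2
      _ ≤ 3 * N := Nat.div_mul_le_self _ _
  have h5 : N < 2 * H * (N / (2 * H) + 1) := Nat.lt_mul_div_succ N (by omega)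
  have h6 : 2 * H * (N / (2 * H) + 1) ≤ 2 * H * (i + 1) := Nat.mul_le_mul_left _ (by omega)
  have h7 : 2 * H * (i + 1) = 2 * (i * H) + 2 * H := by ring
  have h8 : 1 * H ≤ i * H := Nat.mul_le_mul_right H (by omega)
  refine ⟨by omega, by omega, by omega, by omega⟩

theorem sv_mono (N y : ℕ) (ε ε' : ℝ) (h : ε ≤ ε') (hL : 0 < Real.log N) (S T : ℕ → ℝ) (kS kT : ℝ)
    (hs : SvI N y ε S T kS kT) : SvI N y ε' S T kS kT := by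
  obtain ⟨a, b, c, d, e⟩ := hs
  refine ⟨a, b, c, d, fun x l h1 h2 h3 => ?_⟩
  obtain ⟨f, g⟩ := e x l h1 h2 h3
  have h4 : ε * l / Real.log N ≤ ε' * l / Real.log N :=
    div_le_div_of_nonneg_right (mul_le_mul_of_nonneg_right h (Nat.cast_nonneg l)) hL.le
  exact ⟨f.trans h4, g.trans h4⟩

theorem lin_g (hVK : VKp) (θ ζ' ζ κ' κ : ℝ) (h1 : 51 / 250 ≤ ζ') (h2 : ζ' < ζ) (h3 : ζ < 27 / 100)
    (h4 : 3 / 10 < κ') (h5 : κ' < κ) (h6 : ζ + κ < 59 / 100) (hζ : ζ < θ) (hθ2 : θ < 1 / 3)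
    (hκ : 4 * κ < 1 + 2 * θ) : LINg θ ζ' ζ κ' κ := by
  intro ε hε
  obtain ⟨e4, he4, he4', hTI⟩ := tip2 θ κ (by linarith) hθ2 hκ
  obtain ⟨e10, he10, hsv⟩ := sv_pair e4 (min ε 1) he4 he4' (lt_min hε one_pos) (min_le_right _ _)
  obtain ⟨e1, he1, he1a, he1b⟩ : ∃ e1 : ℝ, 0 < e1 ∧ e1 ≤ e10 ∧ e1 ≤ 1 / 100 :=
    ⟨min e10 (1 / 100), lt_min he10 (by norm_num), min_le_left _ _, min_le_right _ _⟩
  have hP : Par e1 ζ' ζ κ' κ := ⟨he1, he1b, by linarith, h2, h3, h4, h5, h6⟩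
  obtain ⟨C, hsv⟩ := hsv e1 he1 he1a
  refine ⟨e1, he1, he1b, C + 3, fun A => ?_⟩
  obtain ⟨B1, hsv⟩ := hsv (A + 7)
  obtain ⟨B2, hbad⟩ := lin_bad_g hVK θ e1 ζ' ζ κ' κ e4 hP hζ hθ2 hTI A
  obtain ⟨B, hB1, hB2⟩ : ∃ B : ℕ, B1 ≤ B ∧ B2 ≤ B := ⟨max B1 B2, le_max_left _ _, le_max_right _ _⟩
  obtain ⟨N1, hsv⟩ := hsv B hB1
  obtain ⟨N2, hbad⟩ := hbad B hB2
  obtain ⟨N3, hLev⟩ := LinG_Lev e1 ζ' ζ κ' κ hP
  obtain ⟨N4, hlarge⟩ := LinG_large θ (by linarith) hθ2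
  obtain ⟨N5, hsec⟩ := lin_sec_g C
  obtain ⟨N6, hst⟩ := kap_step e1 ζ he1 (by linarith) (by linarith) (A + 2)
  obtain ⟨N7, hst2⟩ := kstep_q e1 ζ' ζ κ' κ hP (A + 2)
  refine ⟨B, N1 + N2 + N3 + N4 + N5 + N6 + N7 + 1, fun N hN => ?_⟩
  obtain ⟨S, T, g, kS, kT, Q, s1, s2, s3, s4, s5, s6⟩ := hsv N (by omega)
  have hbad := hbad N (by omega)
  obtain ⟨J, J1, hJ⟩ := hLev N (by omega)
  obtain ⟨b1, b2, b3, b4, b5⟩ := hlarge N (by omega)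
  have hsec := hsec N (by omega)
  have hst := hst N (by omega)
  have hst2 := hst2 N (by omega)
  have hN1 : 1 ≤ N := by omega
  have hN1r : (1 : ℝ) ≤ N := by exact_mod_cast hN1
  clear hN
  have hy : 1 ≤ yN e1 N := by
    unfold yN
    exact (Nat.one_le_floor_iff _).2 (Real.one_le_rpow hN1r he1.le)
  have hz : (N : ℝ) ^ (51 / 250 : ℝ) ≤ zz (yN e1 N) J :=
    (Real.rpow_le_rpow_of_exponent_le hN1r h1).trans hJ.2.1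
  have hH : Hn θ N = ⌊(N : ℝ) ^ θ⌋₊ := rfl
  obtain ⟨c1, c2, c3⟩ := hbad J J1 Q S g T kS kT hJ s2 s3 (fun i α hi => (s4 _ i α b2 hi).1)
    (fun i α hi => (s4 _ i α b2 hi).2)
  refine ⟨J, J1, S, T, kS, kT, hJ, sv_mono N _ _ _ (min_le_left _ _) (by linarith) S T kS kT s1, ?_, ?_, c1, c2, c3⟩
  · intro i hi
    rw [hH] at hi ⊢
    obtain ⟨i1, i2, i3, i4⟩ := LinG_idx b5 b3 hi
    have h := hsec (yN e1 N) J J1 S T hy hz s5 s6 (i * ⌊(N : ℝ) ^ θ⌋₊) ⌊(N : ℝ) ^ θ⌋₊ i4 b2 i3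
    have hb : blk ⌊(N : ℝ) ^ θ⌋₊ i = Ico (i * ⌊(N : ℝ) ^ θ⌋₊) (i * ⌊(N : ℝ) ^ θ⌋₊ + ⌊(N : ℝ) ^ θ⌋₊) := by
      unfold blk
      rw [add_mul, one_mul]
    rw [hb]
    exact h
  · intro i hi _
    rw [hH] at hi ⊢
    obtain ⟨i1, i2, i3, i4⟩ := LinG_idx b5 b3 hi
    have hx : (i + 1) * ⌊(N : ℝ) ^ θ⌋₊ = i * ⌊(N : ℝ) ^ θ⌋₊ + ⌊(N : ℝ) ^ θ⌋₊ := by ring
    have hxx : i * ⌊(N : ℝ) ^ θ⌋₊ ≤ (i + 1) * ⌊(N : ℝ) ^ θ⌋₊ := by omega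
    have hxr : (((i + 1) * ⌊(N : ℝ) ^ θ⌋₊ : ℕ) : ℝ) ≤ ((i * ⌊(N : ℝ) ^ θ⌋₊ : ℕ) : ℝ) + (N : ℝ) ^ (1 / 2 : ℝ) := by
      rw [hx]
      push_cast
      linarith
    have e1' := hst J (i * ⌊(N : ℝ) ^ θ⌋₊) ((i + 1) * ⌊(N : ℝ) ^ θ⌋₊) kS hJ.2.2.1 i2 hxx hxr
    have e2' := hst2 J J1 (i * ⌊(N : ℝ) ^ θ⌋₊) ((i + 1) * ⌊(N : ℝ) ^ θ⌋₊) kS kT hJ i2 hxx hxr
    have hL : 0 < Real.log N := by linarith
    have e3 : 4 * (1 / Real.log N ^ (A + 2)) ≤ 1 / Real.log N ^ A := by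
      have h7 : 1 / Real.log N ^ (A + 2) = 1 / Real.log N ^ A * (1 / Real.log N ^ 2) := by
        rw [pow_add]
        field_simp
      have h8 : 4 * (1 / Real.log N ^ 2) ≤ 1 := by
        rw [mul_one_div, div_le_one (by positivity)]
        nlinarith
      rw [h7]
      have h9 : 0 ≤ 1 / Real.log N ^ A := by positivity
      calc 4 * (1 / Real.log N ^ A * (1 / Real.log N ^ 2)) = 1 / Real.log N ^ A * (4 * (1 / Real.log N ^ 2)) := by ring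
        _ ≤ 1 / Real.log N ^ A * 1 := mul_le_mul_of_nonneg_left h8 h9
        _ = 1 / Real.log N ^ A := mul_one _
    have e0 : 0 ≤ 1 / Real.log N ^ (A + 2) := by positivity
    rw [abs_le] at e1' e2'
    constructor
    · rw [abs_le]
      constructor <;> linarith
    · unfold k1
      rw [abs_le]
      constructor <;> linarith

/-- the box of the version `2/9 ≤ θ < 1/3` -/
theorem lin (hVK : VKp) (θ : ℝ) (hθ : 2 / 9 ≤ θ) (hθ2 : θ < 1 / 3) : LIN θ :=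
  lin_g hVK θ (111 / 500) (2221 / 10000) (3053 / 10000) (1527 / 5000) (by norm_num) (by norm_num) (by norm_num)
    (by norm_num) (by norm_num) (by norm_num) (by linarith) hθ2 (by linarith)

end Pool.Agent.H91.TL
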